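import Pool.Agent.Lib.MP_293cc0_an.Comb

/-!
# MP_293cc0_an, class E: forests

`Fo C H n s S c r par Z σ`: the points `S` (all `< n`) form a forest with the trees `{u ∈ S | c u = i}`, `i < s`, the root of the tree `i`
is `r i`; every other point `v` has a parent `par v`, the pair `par v, v` is heavy. In the column of `v` one token
of every tree is covered by the function of `v` (`Z v`), the other points are served by the functions of the points
which are not roots; the function of `k` can serve `par k` (`σ k v = some true`) or `k` (`σ k v = some false`).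
-/

set_option autoImplicit false

namespace Pool.Agent.Lib.MP_293cc0_an.E

open Finset

variable {X : Type} [MetricSpace X] {N : ℕ}

/-- A forest. -/
structure Fo (C : Comb X N) (H : ℕ → ℕ → Prop) (n s : ℕ) (S : Finset ℕ) (c r par : ℕ → ℕ)
    (Z : ℕ → Finset ℕ) (σ : ℕ → ℕ → Option Bool) : Prop where
  lt : ∀ u ∈ S, u < n
  lab : ∀ u ∈ S, c u < s
  root : ∀ i < s, r i ∈ S ∧ c (r i) = i
  zlt : ∀ v ∈ S, ∀ u ∈ Z v, u ∈ S ∧ u < v
  parent : ∀ v ∈ S, v ≠ r (c v) → par v ∈ Z v ∧ H (par v) v ∧ ∀ u ∈ Z v, C.e u v ≤ C.e (par v) v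
  light : ∀ i < s, ∀ u ∈ Z (r i), ¬ H u (r i)
  cover : ∀ v ∈ S, ∀ u ∈ S, u < v → u ∈ Z v ∨ ∃ k ∈ S, k ≠ r (c k) ∧ k < v ∧
    ((σ k v = some true ∧ u = par k) ∨ (σ k v = some false ∧ u = k))
  tok : ∀ z : ℕ → ℕ, (∀ i < s, z i ∈ S ∧ c (z i) = i) → ∃ g : ℕ → ℕ,
    (∀ u ∈ S, u ≠ z (c u) → g u ∈ S ∧ g u ≠ r (c (g u)) ∧ (u = par (g u) ∨ u = g u)) ∧
    ∀ u ∈ S, ∀ v ∈ S, u ≠ z (c u) → v ≠ z (c v) → g u = g v → u = v

/-- The service at one column. -/
theorem Fo.serve {C : Comb X N} {H : ℕ → ℕ → Prop} {n s : ℕ} {S : Finset ℕ} {c r par : ℕ → ℕ}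
    {Z : ℕ → Finset ℕ} {σ : ℕ → ℕ → Option Bool} (h : Fo C H n s S c r par Z σ)
    (z : ℕ → ℕ) (hz : ∀ i < s, z i ∈ S ∧ c (z i) = i) :
    ∃ ω : ℕ → Option Bool, ∀ u ∈ S, u ≠ z (c u) → ∃ k ∈ S, k ≠ r (c k) ∧
      ((ω k = some true ∧ u = par k) ∨ (ω k = some false ∧ u = k)) := by
  classical
  obtain ⟨g, hg1, hg2⟩ := h.tok z hz
  refine ⟨fun k => if ∃ u ∈ S, u ≠ z (c u) ∧ g u = k ∧ u = par k then some true else
    if k ∈ S ∧ k ≠ z (c k) ∧ g k = k then some false else none, ?_⟩
  intro u hu hne
  obtain ⟨h1, h2, h3⟩ := hg1 u hu hne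
  refine ⟨g u, h1, h2, ?_⟩
  rcases h3 with h3 | h3
  · left
    refine ⟨?_, h3⟩
    simp only
    rw [if_pos ⟨u, hu, hne, rfl, h3⟩]
  · right
    refine ⟨?_, h3⟩
    simp only
    rw [if_neg, if_pos]
    · rw [← h3]
      exact ⟨hu, hne, h3.symm⟩
    · rintro ⟨u', hu', hne', hg', hp'⟩
      have h4 : u' = u := hg2 u' hu' u hu hne' hne hg'
      obtain ⟨h5, -, -⟩ := h.parent (g u) h1 h2
      have h6 := (h.zlt (g u) h1 _ h5).2
      rw [← hp', h4, ← h3] at h6
      exact lt_irrefl _ h6

theorem Fo.mono {C : Comb X N} {H : ℕ → ℕ → Prop} {n n' s : ℕ} {S : Finset ℕ}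
    {c r par : ℕ → ℕ} {Z : ℕ → Finset ℕ} {σ : ℕ → ℕ → Option Bool}
    (h : Fo C H n s S c r par Z σ) (hn : n ≤ n') : Fo C H n' s S c r par Z σ :=
  { h with lt := fun u hu => lt_of_lt_of_le (h.lt u hu) hn }

/-- The column `v` joins the tree `i₀`. -/
theorem Fo.attach {C : Comb X N} {H : ℕ → ℕ → Prop} {n s : ℕ} {S : Finset ℕ} {c r par : ℕ → ℕ}
    {Z : ℕ → Finset ℕ} {σ : ℕ → ℕ → Option Bool} (h : Fo C H n s S c r par Z σ)
    {v : ℕ} (hn : n ≤ v) (z : ℕ → ℕ) (hz : ∀ i < s, z i ∈ S ∧ c (z i) = i) {i₀ : ℕ} (hi : i₀ < s)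
    (hH : H (z i₀) v) (htop : ∀ i < s, C.e (z i) v ≤ C.e (z i₀) v) :
    ∃ σ', Fo C H (v + 1) s (insert v S) (Function.update c v i₀) r
      (Function.update par v (z i₀)) (Function.update Z v ((range s).image z)) σ' := by
  classical
  obtain ⟨ω, hω⟩ := h.serve z hz
  have hvS : v ∉ S := fun hv => absurd (h.lt v hv) (not_lt.2 hn)
  have hne : ∀ u ∈ S, u ≠ v := fun u hu e => hvS (e ▸ hu)
  have hc : ∀ u ∈ S, Function.update c v i₀ u = c u := fun u hu => Function.update_of_ne (hne u hu) _ _
  have hcv : Function.update c v i₀ v = i₀ := Function.update_self _ _ _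
  have hp : ∀ u ∈ S, Function.update par v (z i₀) u = par u :=
    fun u hu => Function.update_of_ne (hne u hu) _ _
  have hpv : Function.update par v (z i₀) v = z i₀ := Function.update_self _ _ _
  have hZ : ∀ u ∈ S, Function.update Z v ((range s).image z) u = Z u :=
    fun u hu => Function.update_of_ne (hne u hu) _ _
  have hZv : Function.update Z v ((range s).image z) v = (range s).image z :=
    Function.update_self _ _ _
  have hrv : ∀ i < s, r i ≠ v := fun i hi' => hne _ (h.root i hi').1
  refine ⟨fun k w => if w = v then ω k else σ k w, ?_, ?_, ?_, ?_, ?_, ?_, ?_, ?_⟩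
  · intro u hu
    rcases Finset.mem_insert.1 hu with rfl | hu
    · exact Nat.lt_succ_self _
    · exact lt_of_lt_of_le (h.lt u hu) (by omega)
  · intro u hu
    rcases Finset.mem_insert.1 hu with rfl | hu
    · rw [hcv]; exact hi
    · rw [hc u hu]; exact h.lab u hu
  · intro i hi'
    obtain ⟨h1, h2⟩ := h.root i hi'
    exact ⟨Finset.mem_insert_of_mem h1, by rw [hc _ h1]; exact h2⟩
  · intro w hw u hu
    rcases Finset.mem_insert.1 hw with rfl | hw
    · rw [hZv] at hu
      obtain ⟨i, hi', rfl⟩ := Finset.mem_image.1 hu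
      have h1 := (hz i (Finset.mem_range.1 hi')).1
      exact ⟨Finset.mem_insert_of_mem h1, lt_of_lt_of_le (h.lt _ h1) hn⟩
    · rw [hZ w hw] at hu
      obtain ⟨h1, h2⟩ := h.zlt w hw u hu
      exact ⟨Finset.mem_insert_of_mem h1, h2⟩
  · intro w hw hwr
    rcases Finset.mem_insert.1 hw with rfl | hw
    · rw [hpv, hZv]
      refine ⟨Finset.mem_image_of_mem _ (Finset.mem_range.2 hi), hH, ?_⟩
      intro u hu
      obtain ⟨i, hi', rfl⟩ := Finset.mem_image.1 hu
      exact htop i (Finset.mem_range.1 hi')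
    · rw [hc w hw] at hwr
      rw [hp w hw, hZ w hw]
      exact h.parent w hw hwr
  · intro i hi' u hu
    rw [hZ _ (h.root i hi').1] at hu
    exact h.light i hi' u hu
  · intro w hw u hu huw
    rcases Finset.mem_insert.1 hw with rfl | hw
    · rcases Finset.mem_insert.1 hu with rfl | hu
      · exact absurd huw (lt_irrefl _)
      · by_cases hzu : u = z (c u)
        · left
          rw [hZv, hzu]
          exact Finset.mem_image_of_mem _ (Finset.mem_range.2 (h.lab u hu))
        · right
          obtain ⟨k, hk, hkr, hk2⟩ := hω u hu hzu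
          refine ⟨k, Finset.mem_insert_of_mem hk, by rw [hc k hk]; exact hkr,
            lt_of_lt_of_le (h.lt k hk) hn, ?_⟩
          rw [if_pos rfl, hp k hk]
          exact hk2
    · have hu' : u ∈ S := by
        rcases Finset.mem_insert.1 hu with h9 | h9
        · exact absurd (lt_trans huw (h.lt w hw)) (by rw [h9]; exact not_lt.2 hn)
        · exact h9
      rcases h.cover w hw u hu' huw with h1 | ⟨k, hk, hkr, hkw, hk2⟩
      · left
        rw [hZ w hw]
        exact h1
      · right
        refine ⟨k, Finset.mem_insert_of_mem hk, by rw [hc k hk]; exact hkr, hkw, ?_⟩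
        rw [if_neg (hne w hw), hp k hk]
        exact hk2
  · intro z' hz'
    by_cases hv : z' i₀ = v
    · obtain ⟨g, hg1, hg2⟩ := h.tok (Function.update z' i₀ (z i₀)) (by
        intro i hi'
        by_cases hii : i = i₀
        · subst hii
          rw [Function.update_self]
          exact hz i hi'
        · rw [Function.update_of_ne hii]
          obtain ⟨h1, h2⟩ := hz' i hi'
          rcases Finset.mem_insert.1 h1 with h3 | h3
          · rw [h3, hcv] at h2
            exact absurd h2.symm hii
          · rw [hc _ h3] at h2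
            exact ⟨h3, h2⟩)
      have key : ∀ u ∈ insert v S, u ≠ z' (Function.update c v i₀ u) → u ∈ S ∧
          (u ≠ z i₀ → u ≠ Function.update z' i₀ (z i₀) (c u)) := by
        intro u hu hne'
        have huS : u ∈ S := by
          rcases Finset.mem_insert.1 hu with h3 | h3
          · rw [h3, hcv, hv] at hne'
            exact absurd rfl hne'
          · exact h3
        refine ⟨huS, fun h4 => ?_⟩
        by_cases hii : c u = i₀
        · rw [hii, Function.update_self]
          exact h4
        · rw [Function.update_of_ne hii]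
          rw [hc u huS] at hne'
          exact hne'
      refine ⟨fun u => if u = z i₀ then v else g u, ?_, ?_⟩
      · intro u hu hne'
        obtain ⟨huS, h4⟩ := key u hu hne'
        simp only
        by_cases h5 : u = z i₀
        · rw [if_pos h5]
          refine ⟨Finset.mem_insert_self _ _, ?_, Or.inl ?_⟩
          · rw [hcv]
            exact (hrv i₀ hi).symm
          · rw [hpv]
            exact h5
        · rw [if_neg h5]
          obtain ⟨h6, h7, h8⟩ := hg1 u huS (h4 h5)
          exact ⟨Finset.mem_insert_of_mem h6, by rw [hc _ h6]; exact h7, by rw [hp _ h6]; exact h8⟩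
      · intro u hu w hw hne1 hne2 hgg
        obtain ⟨huS, hu4⟩ := key u hu hne1
        obtain ⟨hwS, hw4⟩ := key w hw hne2
        simp only at hgg
        by_cases hu5 : u = z i₀
        · by_cases hw5 : w = z i₀
          · rw [hu5, hw5]
          · rw [if_pos hu5, if_neg hw5] at hgg
            exact absurd hgg.symm (hne _ (hg1 w hwS (hw4 hw5)).1)
        · by_cases hw5 : w = z i₀
          · rw [if_neg hu5, if_pos hw5] at hgg
            exact absurd hgg (hne _ (hg1 u huS (hu4 hu5)).1)
          · rw [if_neg hu5, if_neg hw5] at hgg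
            exact hg2 u huS w hwS (hu4 hu5) (hw4 hw5) hgg
    · have hzS : ∀ i < s, z' i ∈ S ∧ c (z' i) = i := by
        intro i hi'
        obtain ⟨h1, h2⟩ := hz' i hi'
        rcases Finset.mem_insert.1 h1 with h3 | h3
        · rw [h3, hcv] at h2
          rw [← h2] at h3
          exact absurd h3 hv
        · rw [hc _ h3] at h2
          exact ⟨h3, h2⟩
      obtain ⟨g, hg1, hg2⟩ := h.tok z' hzS
      refine ⟨fun u => if u = v then v else g u, ?_, ?_⟩
      · intro u hu hne'
        simp only
        by_cases h5 : u = v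
        · rw [if_pos h5]
          refine ⟨Finset.mem_insert_self _ _, ?_, Or.inr h5⟩
          rw [hcv]
          exact (hrv i₀ hi).symm
        · rw [if_neg h5]
          have huS : u ∈ S := (Finset.mem_insert.1 hu).resolve_left h5
          rw [hc u huS] at hne'
          obtain ⟨h6, h7, h8⟩ := hg1 u huS hne'
          exact ⟨Finset.mem_insert_of_mem h6, by rw [hc _ h6]; exact h7, by rw [hp _ h6]; exact h8⟩
      · intro u hu w hw hne1 hne2 hgg
        simp only at hgg
        by_cases hu5 : u = v
        · by_cases hw5 : w = v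
          · rw [hu5, hw5]
          · have hwS : w ∈ S := (Finset.mem_insert.1 hw).resolve_left hw5
            rw [hc w hwS] at hne2
            rw [if_pos hu5, if_neg hw5] at hgg
            exact absurd hgg.symm (hne _ (hg1 w hwS hne2).1)
        · have huS : u ∈ S := (Finset.mem_insert.1 hu).resolve_left hu5
          rw [hc u huS] at hne1
          by_cases hw5 : w = v
          · rw [if_neg hu5, if_pos hw5] at hgg
            exact absurd hgg (hne _ (hg1 u huS hne1).1)
          · have hwS : w ∈ S := (Finset.mem_insert.1 hw).resolve_left hw5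
            rw [hc w hwS] at hne2
            rw [if_neg hu5, if_neg hw5] at hgg
            exact hg2 u huS w hwS hne1 hne2 hgg

/-- The column `v` becomes a new root. -/
theorem Fo.newroot {C : Comb X N} {H : ℕ → ℕ → Prop} {n s : ℕ} {S : Finset ℕ}
    {c r par : ℕ → ℕ} {Z : ℕ → Finset ℕ} {σ : ℕ → ℕ → Option Bool}
    (h : Fo C H n s S c r par Z σ) {v : ℕ} (hn : n ≤ v) (z : ℕ → ℕ)
    (hz : ∀ i < s, z i ∈ S ∧ c (z i) = i) (hH : ∀ i < s, ¬ H (z i) v) :
    ∃ σ', Fo C H (v + 1) (s + 1) (insert v S) (Function.update c v s)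
      (Function.update r s v) par (Function.update Z v ((range s).image z)) σ' := by
  classical
  obtain ⟨ω, hω⟩ := h.serve z hz
  have hvS : v ∉ S := fun hv => absurd (h.lt v hv) (not_lt.2 hn)
  have hne : ∀ u ∈ S, u ≠ v := fun u hu e => hvS (e ▸ hu)
  have hc : ∀ u ∈ S, Function.update c v s u = c u := fun u hu => Function.update_of_ne (hne u hu) _ _
  have hcv : Function.update c v s v = s := Function.update_self _ _ _
  have hZ : ∀ u ∈ S, Function.update Z v ((range s).image z) u = Z u :=
    fun u hu => Function.update_of_ne (hne u hu) _ _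
  have hZv : Function.update Z v ((range s).image z) v = (range s).image z :=
    Function.update_self _ _ _
  have hr : ∀ i < s, Function.update r s v i = r i :=
    fun i hi => Function.update_of_ne hi.ne _ _
  have hrs : Function.update r s v s = v := Function.update_self _ _ _
  have hrc : ∀ u ∈ S, Function.update r s v (Function.update c v s u) = r (c u) := by
    intro u hu
    rw [hc u hu, hr _ (h.lab u hu)]
  have hrcv : Function.update r s v (Function.update c v s v) = v := by
    rw [hcv, hrs]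
  refine ⟨fun k w => if w = v then ω k else σ k w, ?_, ?_, ?_, ?_, ?_, ?_, ?_, ?_⟩
  · intro u hu
    rcases Finset.mem_insert.1 hu with rfl | hu
    · exact Nat.lt_succ_self _
    · exact lt_of_lt_of_le (h.lt u hu) (by omega)
  · intro u hu
    rcases Finset.mem_insert.1 hu with rfl | hu
    · rw [hcv]; exact Nat.lt_succ_self _
    · rw [hc u hu]; exact lt_trans (h.lab u hu) (Nat.lt_succ_self _)
  · intro i hi'
    rcases Nat.lt_succ_iff_lt_or_eq.1 hi' with hi' | rfl
    · obtain ⟨h1, h2⟩ := h.root i hi'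
      rw [hr i hi']
      exact ⟨Finset.mem_insert_of_mem h1, by rw [hc _ h1]; exact h2⟩
    · rw [hrs, hcv]
      exact ⟨Finset.mem_insert_self _ _, rfl⟩
  · intro w hw u hu
    rcases Finset.mem_insert.1 hw with rfl | hw
    · rw [hZv] at hu
      obtain ⟨i, hi', rfl⟩ := Finset.mem_image.1 hu
      have h1 := (hz i (Finset.mem_range.1 hi')).1
      exact ⟨Finset.mem_insert_of_mem h1, lt_of_lt_of_le (h.lt _ h1) hn⟩
    · rw [hZ w hw] at hu
      obtain ⟨h1, h2⟩ := h.zlt w hw u hu
      exact ⟨Finset.mem_insert_of_mem h1, h2⟩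
  · intro w hw hwr
    rcases Finset.mem_insert.1 hw with rfl | hw
    · rw [hrcv] at hwr
      exact absurd rfl hwr
    · rw [hrc w hw] at hwr
      rw [hZ w hw]
      exact h.parent w hw hwr
  · intro i hi' u hu
    rcases Nat.lt_succ_iff_lt_or_eq.1 hi' with hi' | rfl
    · rw [hr i hi', hZ _ (h.root i hi').1] at hu
      rw [hr i hi']
      exact h.light i hi' u hu
    · rw [hrs, hZv] at hu
      rw [hrs]
      obtain ⟨j, hj, rfl⟩ := Finset.mem_image.1 hu
      exact hH j (Finset.mem_range.1 hj)
  · intro w hw u hu huw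
    rcases Finset.mem_insert.1 hw with rfl | hw
    · rcases Finset.mem_insert.1 hu with rfl | hu
      · exact absurd huw (lt_irrefl _)
      · by_cases hzu : u = z (c u)
        · left
          rw [hZv, hzu]
          exact Finset.mem_image_of_mem _ (Finset.mem_range.2 (h.lab u hu))
        · right
          obtain ⟨k, hk, hkr, hk2⟩ := hω u hu hzu
          refine ⟨k, Finset.mem_insert_of_mem hk, by rw [hrc k hk]; exact hkr,
            lt_of_lt_of_le (h.lt k hk) hn, ?_⟩
          rw [if_pos rfl]
          exact hk2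
    · have hu' : u ∈ S := by
        rcases Finset.mem_insert.1 hu with h9 | h9
        · exact absurd (lt_trans huw (h.lt w hw)) (by rw [h9]; exact not_lt.2 hn)
        · exact h9
      rcases h.cover w hw u hu' huw with h1 | ⟨k, hk, hkr, hkw, hk2⟩
      · left
        rw [hZ w hw]
        exact h1
      · right
        refine ⟨k, Finset.mem_insert_of_mem hk, by rw [hrc k hk]; exact hkr, hkw, ?_⟩
        rw [if_neg (hne w hw)]
        exact hk2
  · intro z' hz'
    have hzS : ∀ i < s, z' i ∈ S ∧ c (z' i) = i := by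
      intro i hi'
      obtain ⟨h1, h2⟩ := hz' i (lt_trans hi' (Nat.lt_succ_self _))
      rcases Finset.mem_insert.1 h1 with h3 | h3
      · rw [h3, hcv] at h2
        exact absurd h2.symm hi'.ne
      · rw [hc _ h3] at h2
        exact ⟨h3, h2⟩
    have hzv : z' s = v := by
      obtain ⟨h1, h2⟩ := hz' s (Nat.lt_succ_self _)
      rcases Finset.mem_insert.1 h1 with h3 | h3
      · exact h3
      · rw [hc _ h3] at h2
        exact absurd h2 (h.lab _ h3).ne
    obtain ⟨g, hg1, hg2⟩ := h.tok z' hzS
    have key : ∀ u ∈ insert v S, u ≠ z' (Function.update c v s u) → u ∈ S ∧ u ≠ z' (c u) := by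
      intro u hu hne'
      rcases Finset.mem_insert.1 hu with h3 | h3
      · rw [h3, hcv, hzv] at hne'
        exact absurd rfl hne'
      · rw [hc u h3] at hne'
        exact ⟨h3, hne'⟩
    refine ⟨g, ?_, ?_⟩
    · intro u hu hne'
      obtain ⟨huS, h4⟩ := key u hu hne'
      obtain ⟨h6, h7, h8⟩ := hg1 u huS h4
      exact ⟨Finset.mem_insert_of_mem h6, by rw [hrc _ h6]; exact h7, h8⟩
    · intro u hu w hw hne1 hne2 hgg
      obtain ⟨huS, hu4⟩ := key u hu hne1
      obtain ⟨hwS, hw4⟩ := key w hw hne2
      exact hg2 u huS w hwS hu4 hw4 hgg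

/-- The empty forest. -/
theorem Fo.empty (C : Comb X N) (H : ℕ → ℕ → Prop) (n : ℕ) :
    Fo C H n 0 ∅ (fun _ => 0) (fun _ => 0) (fun _ => 0) (fun _ => ∅) (fun _ _ => none) :=
  ⟨by simp, by simp, by simp, by simp, by simp, by simp, by simp, fun _ _ => ⟨fun _ => 0, by simp, by simp⟩⟩

end Pool.Agent.Lib.MP_293cc0_an.E
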