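import Pool.Agent.Lib.MP_293cc0_an.Comb

/-!
# MP_293cc0_an, class E: a host (mode (a))

`r` is joined to the older points `W`, the host `z` is joined to the points `Y` between `r` and `z`; all pairs `x, r`
with `x ∈ W` are low at all `y ∈ Y`.
-/

set_option autoImplicit false

namespace Pool.Agent.Lib.MP_293cc0_an.E

open Finset

variable {X : Type} [MetricSpace X] {N : ℕ}

theorem host {C : Comb X N} {r z : ℕ} (W Y : Finset ℕ) (hW : ∀ x ∈ W, x < r) (hz : z < N)
    (hY : ∀ y ∈ Y, r < y ∧ y < z) (hne : Y.Nonempty)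
    (hL : ∀ x ∈ W, ∀ y ∈ Y, C.e x r ≤ C.e r y) :
    ∃ f : IPF C, (∀ x ∈ W, f.cov x r) ∧ ∀ y ∈ Y, f.cov y z := by
  classical
  obtain ⟨y₀, hy₀, hmin⟩ := Finset.exists_min_image Y
    (fun y => dist (C.x y) (C.x r) - dist (C.x y) (C.x z)) hne
  obtain ⟨δ, hδ⟩ : ∃ δ : ℝ, δ = dist (C.x y₀) (C.x r) - dist (C.x y₀) (C.x z) := ⟨_, rfl⟩
  have hδ1 : ∀ y ∈ Y, δ ≤ dist (C.x y) (C.x r) - dist (C.x y) (C.x z) := by
    intro y hy
    rw [hδ]
    exact hmin y hy
  have hrz : r < z := lt_trans (hY y₀ hy₀).1 (hY y₀ hy₀).2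
  have hδ2 : ∀ x ∈ W, dist (C.x x) (C.x r) - dist (C.x x) (C.x z) ≤ δ := by
    intro x hx
    have hxr := hW x hx
    have hy := hY y₀ hy₀
    have hk := C.key r x y₀ z hrz (lt_trans hxr hrz) hy.2 hz hxr.ne' hy.1.ne
      (lt_trans hxr hy.1).ne (by rw [C.symm r x]; exact hL x hx y₀ hy₀)
    rw [dist_comm (C.x r) (C.x x), dist_comm (C.x r) (C.x y₀)] at hk
    rw [hδ]
    linarith
  clear hmin
  -- sides: `true` on `r`, `z`
  obtain ⟨p, hp⟩ : ∃ p : ℕ → ℝ, p = fun i => if i = r then 0 else if i = z then -δ else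
      if i < r then dist (C.x i) (C.x r) else dist (C.x i) (C.x z) + δ := ⟨_, rfl⟩
  obtain ⟨s, hs⟩ : ∃ s : ℕ → Bool, s = fun i => decide (i = r ∨ i = z) := ⟨_, rfl⟩
  have pr : p r = 0 := by rw [hp]; simp
  have pz : p z = -δ := by rw [hp]; simp [hrz.ne']
  have pW : ∀ x ∈ W, p x = dist (C.x x) (C.x r) := by
    intro x hx
    have h1 := hW x hx
    rw [hp]
    simp [h1.ne, (lt_trans h1 hrz).ne, h1]
  have pY : ∀ y ∈ Y, p y = dist (C.x y) (C.x z) + δ := by
    intro y hy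
    have h1 := hY y hy
    rw [hp]
    simp [h1.1.ne', h1.2.ne, h1.1.not_gt]
  have sr : s r = true := by rw [hs]; simp
  have sz : s z = true := by rw [hs]; simp
  have sW : ∀ x ∈ W, s x = false := by
    intro x hx
    have h1 := hW x hx
    rw [hs]
    simp [h1.ne, (lt_trans h1 hrz).ne]
  have sY : ∀ y ∈ Y, s y = false := by
    intro y hy
    have h1 := hY y hy
    rw [hs]
    simp [h1.1.ne', h1.2.ne]
  clear hs hp
  obtain ⟨D, hD⟩ : ∃ D : Finset ℕ, ∀ i, i ∈ D ↔ i = r ∨ i = z ∨ i ∈ W ∨ i ∈ Y :=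
    ⟨insert r (insert z (W ∪ Y)), fun i => by simp⟩
  have hrD : r ∈ D := (hD _).2 (Or.inl rfl)
  have hzD : z ∈ D := (hD _).2 (Or.inr (Or.inl rfl))
  have hWD : ∀ x ∈ W, x ∈ D := fun x hx => (hD _).2 (Or.inr (Or.inr (Or.inl hx)))
  have hYD : ∀ y ∈ Y, y ∈ D := fun y hy => (hD _).2 (Or.inr (Or.inr (Or.inr hy)))
  have eW : ∀ x ∈ W, p x + p r = dist (C.x x) (C.x r) := by
    intro x hx
    rw [pW x hx, pr, add_zero]
  have eY : ∀ y ∈ Y, p y + p z = dist (C.x y) (C.x z) := by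
    intro y hy
    rw [pY y hy, pz]
    ring
  have e0 : p r + p y₀ = dist (C.x r) (C.x y₀) := by
    rw [pr, pY y₀ hy₀, hδ, dist_comm (C.x r) (C.x y₀)]
    ring
  refine ⟨⟨D, s, p, ?_, ?_, ?_⟩, ?_, ?_⟩
  · intro i hi
    rcases (hD i).1 hi with h | h | h | h
    · exact h ▸ lt_trans hrz hz
    · exact h ▸ hz
    · exact lt_trans (lt_trans (hW i h) hrz) hz
    · exact lt_trans (hY i h).2 hz
  · intro i hi j hj hsi hsj
    rcases (hD i).1 hi with h | h | h | h
    · subst h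
      rcases (hD j).1 hj with k | k | k | k
      · subst k
        rw [sr] at hsj
        exact absurd hsj (by simp)
      · subst k
        rw [sz] at hsj
        exact absurd hsj (by simp)
      · rw [add_comm, dist_comm]
        exact (eW j k).le
      · rw [pr, pY j k, dist_comm (C.x i) (C.x j)]
        have := hδ1 j k
        linarith
    · subst h
      rcases (hD j).1 hj with k | k | k | k
      · subst k
        rw [sr] at hsj
        exact absurd hsj (by simp)
      · subst k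
        rw [sz] at hsj
        exact absurd hsj (by simp)
      · rw [pz, pW j k, dist_comm (C.x i) (C.x j)]
        have := hδ2 j k
        linarith
      · rw [add_comm, dist_comm]
        exact (eY j k).le
    · rw [sW i h] at hsi
      exact absurd hsi (by simp)
    · rw [sY i h] at hsi
      exact absurd hsi (by simp)
  · intro i hi
    rcases (hD i).1 hi with h | h | h | h
    · subst h
      exact ⟨y₀, hYD y₀ hy₀, by rw [sr, sY y₀ hy₀]; simp, e0⟩
    · subst h
      refine ⟨y₀, hYD y₀ hy₀, by rw [sz, sY y₀ hy₀]; simp, ?_⟩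
      rw [add_comm, dist_comm]
      exact eY y₀ hy₀
    · exact ⟨r, hrD, by rw [sr, sW i h]; simp, eW i h⟩
    · exact ⟨z, hzD, by rw [sz, sY i h]; simp, eY i h⟩
  · intro x hx
    exact ⟨hWD x hx, hrD, by
      change s x ≠ s r
      rw [sr, sW x hx]; simp, eW x hx⟩
  · intro y hy
    exact ⟨hYD y hy, hzD, by
      change s y ≠ s z
      rw [sz, sY y hy]; simp, eY y hy⟩

end Pool.Agent.Lib.MP_293cc0_an.E
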