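import Pool.Agent.Lib.MP_293cc0_an.E.Star
import Pool.Agent.Lib.MP_293cc0_an.E.Host
import Pool.Agent.Lib.MP_293cc0_an.E.Forest

/-!
# MP_293cc0_an, class E: the hosts

A forest with `s` trees, tokens `y i` such that the pairs `x, r i` (`x` in the set of the root `r i`) are low at all
tokens and hosts: `s` hosts `ζ 0 < ζ 1 < …` are covered by the functions of the roots, savings `s`.
-/

set_option autoImplicit false

namespace Pool.Agent.Lib.MP_293cc0_an.E

open Finset

variable {X : Type} [MetricSpace X] {N : ℕ}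

theorem sav_of_family {C : Comb X N} (S : Finset ℕ) (hS : ∀ u ∈ S, u < N) {ι : Type} [Fintype ι]
    (p : ℕ) (hcard : S.card = Fintype.card ι + p) (f : ι → IPF C)
    (hcov : ∀ u ∈ S, ∀ v ∈ S, u < v → ∃ i, (f i).cov u v) : Sav X p := by
  classical
  have hinj : Set.InjOn C.x (S : Set ℕ) := by
    intro i hi j hj hij
    exact C.inj i j (hS i hi) (hS j hj) hij
  choose F hF using fun i => (f i).exists_pf
  refine ⟨S.image C.x, Fintype.card ι, ?_, ?_⟩
  · rw [Finset.card_image_of_injOn hinj, hcard]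
  · refine ⟨fun i => F ((Fintype.equivFin ι).symm i), ?_⟩
    intro a ha b hb hab
    obtain ⟨i, hi, rfl⟩ := Finset.mem_image.1 ha
    obtain ⟨j, hj, rfl⟩ := Finset.mem_image.1 hb
    have hij : i ≠ j := fun e => hab (by rw [e])
    rcases lt_or_gt_of_ne hij with h | h
    · obtain ⟨k, hk⟩ := hcov i hi j hj h
      refine ⟨Fintype.equivFin ι k, ?_⟩
      simp only [Equiv.symm_apply_apply]
      exact hF k i j hk
    · obtain ⟨k, hk⟩ := hcov j hj i hi h
      refine ⟨Fintype.equivFin ι k, ?_⟩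
      simp only [Equiv.symm_apply_apply]
      exact PF.cov_symm (hF k j i hk)

theorem Fo.finish {C : Comb X N} {H : ℕ → ℕ → Prop} {n s : ℕ} {S : Finset ℕ}
    {c r par : ℕ → ℕ} {Z : ℕ → Finset ℕ} {σ : ℕ → ℕ → Option Bool}
    (h : Fo C H n s S c r par Z σ)
    (h1 : ∀ v ∈ S, ∀ u ∈ S, ∀ k ∈ S, v < u → u < k → H v u →
      C.e v k ≤ C.e v u ∧ C.e u k ≤ C.e v u)
    (y : ℕ → ℕ) (hy : ∀ i < s, y i ∈ S ∧ c (y i) = i) (ζ : ℕ → ℕ)
    (hζ : ∀ i < s, n ≤ ζ i ∧ ζ i < N) (hζm : ∀ i j, i < j → j < s → ζ i < ζ j)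
    (hyr : ∀ i < s, ∀ j < s, r i < y j)
    (hL : ∀ i < s, ∀ x ∈ Z (r i), ∀ j < s, C.e x (r i) ≤ C.e (r i) (y j) ∧
      C.e x (r i) ≤ C.e (r i) (ζ j)) : Sav X s := by
  classical
  rcases Nat.eq_zero_or_pos s with hs0 | hspos
  · subst hs0
    exact ⟨∅, 0, by simp, ⟨fun i => i.elim0, by simp⟩⟩
  have hnN : n < N := lt_of_le_of_lt (hζ 0 hspos).1 (hζ 0 hspos).2
  obtain ⟨ω, hω⟩ := h.serve y hy
  have hζS : ∀ i < s, ζ i ∉ S := fun i hi hS => absurd (h.lt _ hS) (not_lt.2 (hζ i hi).1)
  -- the services at all columns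
  obtain ⟨τ, hτ⟩ : ∃ τ : ℕ → ℕ → Option Bool, τ = fun k w => if w ∈ S then σ k w else
      if n ≤ w then ω k else none := ⟨_, rfl⟩
  have hf : ∀ k : S, ∃ f : IPF C, (∀ u ∈ Z k.1, f.cov u k.1) ∧
      (k.1 ≠ r (c k.1) → ∀ t, k.1 < t → t < N → (τ k.1 t = some true → f.cov (par k.1) t) ∧
        (τ k.1 t = some false → f.cov k.1 t)) ∧
      (k.1 = r (c k.1) → ∀ w, ((∃ j < s, w = y j) ∨ ∃ j < c k.1, w = ζ j) →
        f.cov w (ζ (c k.1))) := by
    rintro ⟨k, hk⟩
    by_cases hkr : k = r (c k)
    · have hck := h.lab k hk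
      obtain ⟨f, hf1, hf2⟩ := host (C := C) (r := k) (z := ζ (c k)) (Z k)
        ((range s).image y ∪ (range (c k)).image ζ) (fun x hx => (h.zlt k hk x hx).2)
        (hζ _ hck).2 (by
          intro w hw
          rcases Finset.mem_union.1 hw with hw | hw
          · obtain ⟨j, hj, rfl⟩ := Finset.mem_image.1 hw
            have hj' := Finset.mem_range.1 hj
            refine ⟨?_, lt_of_lt_of_le (h.lt _ (hy j hj').1) (hζ _ hck).1⟩
            have := hyr (c k) hck j hj'
            rw [← hkr] at this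
            exact this
          · obtain ⟨j, hj, rfl⟩ := Finset.mem_image.1 hw
            have hj' := Finset.mem_range.1 hj
            exact ⟨lt_of_lt_of_le (h.lt k hk) (hζ j (lt_trans hj' hck)).1, hζm _ _ hj' hck⟩)
        ⟨y 0, Finset.mem_union_left _ (Finset.mem_image_of_mem _ (Finset.mem_range.2 hspos))⟩
        (by
          intro x hx w hw
          have hx' : x ∈ Z (r (c k)) := by rw [← hkr]; exact hx
          have hL' := hL (c k) hck x hx'
          rw [← hkr] at hL'
          rcases Finset.mem_union.1 hw with hw | hw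
          · obtain ⟨j, hj, rfl⟩ := Finset.mem_image.1 hw
            exact (hL' j (Finset.mem_range.1 hj)).1
          · obtain ⟨j, hj, rfl⟩ := Finset.mem_image.1 hw
            exact (hL' j (lt_trans (Finset.mem_range.1 hj) hck)).2)
      refine ⟨f, hf1, fun hne => absurd hkr hne, fun _ w hw => hf2 w ?_⟩
      rcases hw with ⟨j, hj, rfl⟩ | ⟨j, hj, rfl⟩
      · exact Finset.mem_union_left _ (Finset.mem_image_of_mem _ (Finset.mem_range.2 hj))
      · exact Finset.mem_union_right _ (Finset.mem_image_of_mem _ (Finset.mem_range.2 hj))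
    · obtain ⟨hp1, hp2, hp3⟩ := h.parent k hk hkr
      obtain ⟨hp4, hp5⟩ := h.zlt k hk _ hp1
      obtain ⟨f, hf1, hf2⟩ := star (C := C) (t₀ := k) (lt_trans (h.lt k hk) hnN) (Z k)
        (fun u hu => (h.zlt k hk u hu).2) hp1 hp3 (τ k) (by
          intro a b hka hab hbN ha hb hne
          have haS : a ∈ S := by
            by_contra haS
            by_cases han : n ≤ a
            · have hbS : b ∉ S := fun hbS => absurd (h.lt b hbS) (not_lt.2 (le_trans han hab.le))
              apply hne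
              rw [hτ]
              simp only
              rw [if_neg haS, if_neg hbS, if_pos han, if_pos (le_trans han hab.le)]
            · apply ha
              rw [hτ]
              simp only
              rw [if_neg haS, if_neg han]
          exact h1 _ hp4 k hk a haS hp5 hka hp2)
      exact ⟨f, hf1, fun _ => hf2, fun hr' => absurd hr' hkr⟩
  choose f hf1 hf2 hf3 using hf
  have hSN : ∀ u ∈ S, u < N := fun u hu => lt_trans (h.lt u hu) hnN
  have hdisj : Disjoint S ((range s).image ζ) := by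
    rw [Finset.disjoint_left]
    intro u hu hu'
    obtain ⟨i, hi, rfl⟩ := Finset.mem_image.1 hu'
    exact hζS i (Finset.mem_range.1 hi) hu
  refine sav_of_family (C := C) (S ∪ (range s).image ζ) ?_ s ?_ f ?_
  · intro u hu
    rcases Finset.mem_union.1 hu with hu | hu
    · exact hSN u hu
    · obtain ⟨i, hi, rfl⟩ := Finset.mem_image.1 hu
      exact (hζ i (Finset.mem_range.1 hi)).2
  · rw [Finset.card_union_of_disjoint hdisj, Finset.card_image_of_injOn, Finset.card_range,
      Fintype.card_coe]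
    intro i hi j hj hij
    have hi' := Finset.mem_range.1 (Finset.mem_coe.1 hi)
    have hj' := Finset.mem_range.1 (Finset.mem_coe.1 hj)
    rcases lt_trichotomy i j with h2 | h2 | h2
    · exact absurd hij (hζm i j h2 hj').ne
    · exact h2
    · exact absurd hij (hζm j i h2 hi').ne'
  · intro u hu v hv huv
    rcases Finset.mem_union.1 hv with hv | hv
    · have huS : u ∈ S := by
        rcases Finset.mem_union.1 hu with hu | hu
        · exact hu
        · obtain ⟨i, hi, rfl⟩ := Finset.mem_image.1 hu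
          exact absurd (lt_trans huv (h.lt v hv)) (not_lt.2 (hζ i (Finset.mem_range.1 hi)).1)
      rcases h.cover v hv u huS huv with h2 | ⟨k, hk, hkr, hkv, h3⟩
      · exact ⟨⟨v, hv⟩, hf1 ⟨v, hv⟩ u h2⟩
      · have h4 := hf2 ⟨k, hk⟩ hkr v hkv (hSN v hv)
        have h5 : τ k v = σ k v := by
          rw [hτ]
          simp only
          rw [if_pos hv]
        simp only at h4
        rw [h5] at h4
        rcases h3 with ⟨h3, rfl⟩ | ⟨h3, rfl⟩
        · exact ⟨⟨k, hk⟩, h4.1 h3⟩
        · exact ⟨⟨u, hk⟩, h4.2 h3⟩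
    · obtain ⟨i, hi, rfl⟩ := Finset.mem_image.1 hv
      have hi' := Finset.mem_range.1 hi
      obtain ⟨hr1, hr2⟩ := h.root i hi'
      have hr3 : r i = r (c (r i)) := by rw [hr2]
      rcases Finset.mem_union.1 hu with hu | hu
      · by_cases huy : u = y (c u)
        · have h4 := hf3 ⟨r i, hr1⟩ hr3 u (Or.inl ⟨c u, h.lab u hu, huy⟩)
          simp only at h4
          rw [hr2] at h4
          exact ⟨_, h4⟩
        · obtain ⟨k, hk, hkr, h3⟩ := hω u hu huy
          have h4 := hf2 ⟨k, hk⟩ hkr (ζ i) (lt_of_lt_of_le (h.lt k hk) (hζ i hi').1) (hζ i hi').2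
          have h5 : τ k (ζ i) = ω k := by
            rw [hτ]
            simp only
            rw [if_neg (hζS i hi'), if_pos (hζ i hi').1]
          simp only at h4
          rw [h5] at h4
          rcases h3 with ⟨h3, rfl⟩ | ⟨h3, rfl⟩
          · exact ⟨⟨k, hk⟩, h4.1 h3⟩
          · exact ⟨⟨u, hk⟩, h4.2 h3⟩
      · obtain ⟨j, hj, rfl⟩ := Finset.mem_image.1 hu
        have hj' := Finset.mem_range.1 hj
        have hji : j < i := by
          by_contra hji
          rcases Nat.lt_or_eq_of_le (not_lt.1 hji) with h6 | h6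
          · exact absurd (hζm i j h6 hj') (not_lt.2 huv.le)
          · rw [h6] at huv
            exact lt_irrefl _ huv
        have h4 := hf3 ⟨r i, hr1⟩ hr3 (ζ j) (Or.inr ⟨j, by rw [hr2]; exact hji, rfl⟩)
        simp only at h4
        rw [hr2] at h4
        exact ⟨_, h4⟩

end Pool.Agent.Lib.MP_293cc0_an.E
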