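import Pool.Agent.Lib.MP_293cc0_an.E.Phase

/-!
# MP_293cc0_an, class E: windows, and the theorem

`IsE C τ`: every pair `a < b` is of type U at the columns `c < τ a b` and of type L at the columns `c ≥ τ a b`.
`E_main`: a comb of class E with `4 p ^ 10` points contains a set of `p` points of type U, or a set of `p` points of type L, or it has savings `p`.
-/

set_option autoImplicit false

namespace Pool.Agent.Lib.MP_293cc0_an

/-- Type U at `a, b, c`. -/
def Comb.UAt {X : Type} [MetricSpace X] {N : ℕ} (C : Comb X N) (a b c : ℕ) : Prop :=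
  C.e a c ≤ C.e a b ∧ C.e b c ≤ C.e a b

/-- Type L at `a, b, c`. -/
def Comb.LAt {X : Type} [MetricSpace X] {N : ℕ} (C : Comb X N) (a b c : ℕ) : Prop :=
  C.e a b ≤ C.e a c ∧ C.e a b ≤ C.e b c

/-- Class E. -/
def Comb.IsE {X : Type} [MetricSpace X] {N : ℕ} (C : Comb X N) (τ : ℕ → ℕ → ℕ) : Prop :=
  ∀ a b c, a < b → b < c → c + 1 < N → (c < τ a b → C.UAt a b c) ∧ (τ a b ≤ c → C.LAt a b c)

namespace E

open Finset

variable {X : Type} [MetricSpace X] {N : ℕ}

theorem greedy_graph (R : ℕ → ℕ → Prop) {D : ℕ} (hD : 1 ≤ D) (m : ℕ) :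
    ∀ I : Finset ℕ, m * D ≤ I.card →
    (∃ a ∈ I, ∃ G ⊆ I, D ≤ G.card ∧ ∀ b ∈ G, a < b ∧ R a b) ∨
      ∃ J ⊆ I, J.card = m ∧ ∀ a ∈ J, ∀ b ∈ J, a < b → ¬ R a b := by
  classical
  induction m with
  | zero =>
    intro I _
    exact Or.inr ⟨∅, by simp, by simp, by simp⟩
  | succ m ih =>
    intro I hI
    have hI' : m * D + D ≤ I.card := by
      rw [Nat.succ_mul] at hI
      exact hI
    have hne : I.Nonempty := by
      rw [← Finset.card_pos]
      omega
    obtain ⟨a, ha⟩ : ∃ a, a = I.min' hne := ⟨_, rfl⟩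
    have haI : a ∈ I := ha ▸ I.min'_mem hne
    have hmin : ∀ b ∈ I, a ≤ b := fun b hb => ha ▸ I.min'_le b hb
    by_cases hG : D ≤ (I.filter fun b => a < b ∧ R a b).card
    · exact Or.inl ⟨a, haI, _, Finset.filter_subset _ _, hG, fun b hb => (Finset.mem_filter.1 hb).2⟩
    · have hcard : m * D ≤ (I.filter fun b => ¬ (a < b ∧ R a b) ∧ b ≠ a).card := by
        have h1 := Finset.card_filter_add_card_filter_not (s := I) (fun b => a < b ∧ R a b)
        have h2 : (I.filter fun b => ¬ (a < b ∧ R a b)).card ≤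
            (I.filter fun b => ¬ (a < b ∧ R a b) ∧ b ≠ a).card + 1 := by
          refine le_trans (Finset.card_le_card
            (t := insert a (I.filter fun b => ¬ (a < b ∧ R a b) ∧ b ≠ a)) ?_)
            (Finset.card_insert_le _ _)
          intro b hb
          rw [Finset.mem_filter] at hb
          by_cases hba : b = a
          · rw [hba]
            exact Finset.mem_insert_self _ _
          · exact Finset.mem_insert_of_mem (Finset.mem_filter.2 ⟨hb.1, hb.2, hba⟩)
        omega
      rcases ih _ hcard with ⟨a', ha', G, hG1, hG2, hG3⟩ | ⟨J, hJ1, hJ2, hJ3⟩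
      · exact Or.inl ⟨a', Finset.filter_subset _ _ ha', G,
          hG1.trans (Finset.filter_subset _ _), hG2, hG3⟩
      · right
        have haJ : a ∉ J := fun h => (Finset.mem_filter.1 (hJ1 h)).2.2 rfl
        refine ⟨insert a J, ?_, by rw [Finset.card_insert_of_notMem haJ, hJ2], ?_⟩
        · intro b hb
          rcases Finset.mem_insert.1 hb with h | h
          · rw [h]; exact haI
          · exact Finset.filter_subset _ _ (hJ1 h)
        · intro b hb b' hb' hlt
          rcases Finset.mem_insert.1 hb with h | h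
          · rcases Finset.mem_insert.1 hb' with h' | h'
            · rw [h, h'] at hlt
              exact absurd hlt (lt_irrefl _)
            · rw [h]
              rw [h] at hlt
              exact fun hR => (Finset.mem_filter.1 (hJ1 h')).2.1 ⟨hlt, hR⟩
          · rcases Finset.mem_insert.1 hb' with h' | h'
            · rw [h'] at hlt
              exact absurd hlt (not_lt.2 (hmin b (Finset.filter_subset _ _ (hJ1 h))))
            · exact hJ3 b h b' h' hlt

/-- The window `a`. -/
def Win (w a : ℕ) : Finset ℕ := Finset.Ico (a * w) ((a + 1) * w)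

theorem mem_Win {w a v : ℕ} : v ∈ Win w a ↔ a * w ≤ v ∧ v < (a + 1) * w := by
  unfold Win
  exact Finset.mem_Ico

theorem card_Win (w a : ℕ) : (Win w a).card = w := by
  unfold Win
  rw [Nat.card_Ico, Nat.succ_mul, Nat.add_sub_cancel_left]

open Classical in
/-- The heavy points of the window `b` for `v`. -/
noncomputable def Hv (τ : ℕ → ℕ → ℕ) (w v b : ℕ) : Finset ℕ :=
  (Win w b).filter fun y => (b + 1) * w < τ v y

open Classical in
theorem transversal (τ : ℕ → ℕ → ℕ) {p w : ℕ} (hw : p * p ^ 2 ≤ w) (hp : 1 ≤ p) (m : ℕ) :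
    ∀ (J Q : Finset ℕ), J.card = m → J.card + Q.card ≤ p →
    (∀ a ∈ J, ∀ b ∈ J, a < b → ((Win w a).filter fun v => p ^ 2 ≤ (Hv τ w v b).card).card < p ^ 2) →
    (∀ q ∈ Q, ∀ b ∈ J, (Hv τ w q b).card < p ^ 2) →
    ∃ f : ℕ → ℕ, (∀ b ∈ J, f b ∈ Win w b) ∧ (∀ q ∈ Q, ∀ b ∈ J, τ q (f b) ≤ (b + 1) * w) ∧
      ∀ a ∈ J, ∀ b ∈ J, a < b → τ (f a) (f b) ≤ (b + 1) * w := by
  induction m with
  | zero =>
    intro J Q hJ _ _ _
    rw [Finset.card_eq_zero] at hJ
    subst hJ
    exact ⟨fun _ => 0, by simp, by simp, by simp⟩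
  | succ m ih =>
    intro J Q hJ hJQ hbad hQ
    have hne : J.Nonempty := by
      rw [← Finset.card_pos]
      omega
    obtain ⟨a, ha⟩ : ∃ a, a = J.min' hne := ⟨_, rfl⟩
    have haJ : a ∈ J := ha ▸ J.min'_mem hne
    have hmin : ∀ b ∈ J, a ≤ b := fun b hb => ha ▸ J.min'_le b hb
    have hcJ : (J.erase a).card = m := by
      rw [Finset.card_erase_of_mem haJ, hJ]
      rfl
    -- the excluded points of the window `a`
    have hex : ((J.erase a).biUnion (fun b => (Win w a).filter fun v => p ^ 2 ≤ (Hv τ w v b).card) ∪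
        Q.biUnion fun q => Hv τ w q a).card < w := by
      have h1 : ((J.erase a).biUnion
          (fun b => (Win w a).filter fun v => p ^ 2 ≤ (Hv τ w v b).card)).card ≤ m * p ^ 2 := by
        rw [← hcJ]
        refine Finset.card_biUnion_le_card_mul _ _ _ (fun b hb => ?_)
        have hb' := Finset.mem_of_mem_erase hb
        exact (hbad a haJ b hb' (lt_of_le_of_ne (hmin b hb') (Finset.ne_of_mem_erase hb).symm)).le
      have h2 : (Q.biUnion fun q => Hv τ w q a).card ≤ Q.card * p ^ 2 := by
        refine Finset.card_biUnion_le_card_mul _ _ _ (fun q hq => ?_)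
        exact (hQ q hq a haJ).le
      have h3 : m + Q.card + 1 ≤ p := by omega
      have h4 : (m + Q.card + 1) * p ^ 2 ≤ p * p ^ 2 := Nat.mul_le_mul_right _ h3
      have h5 : 0 < p ^ 2 := by positivity
      have h6 : (m + Q.card + 1) * p ^ 2 = m * p ^ 2 + Q.card * p ^ 2 + p ^ 2 := by ring
      have h7 := Finset.card_union_le ((J.erase a).biUnion
          (fun b => (Win w a).filter fun v => p ^ 2 ≤ (Hv τ w v b).card))
        (Q.biUnion fun q => Hv τ w q a)
      omega
    obtain ⟨v, hvW, hv⟩ := Finset.exists_mem_notMem_of_card_lt_card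
      (lt_of_lt_of_eq hex (card_Win w a).symm)
    rw [Finset.mem_union, not_or] at hv
    obtain ⟨hv1, hv2⟩ := hv
    have hv1' : ∀ b ∈ J.erase a, (Hv τ w v b).card < p ^ 2 := by
      intro b hb
      by_contra h8
      exact hv1 (Finset.mem_biUnion.2 ⟨b, hb, Finset.mem_filter.2 ⟨hvW, not_lt.1 h8⟩⟩)
    have hv2' : ∀ q ∈ Q, τ q v ≤ (a + 1) * w := by
      intro q hq
      by_contra h8
      exact hv2 (Finset.mem_biUnion.2 ⟨q, hq, Finset.mem_filter.2 ⟨hvW, not_le.1 h8⟩⟩)
    obtain ⟨f, hf1, hf2, hf3⟩ := ih (J.erase a) (insert v Q) hcJ (by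
        have := Finset.card_insert_le v Q
        omega)
      (fun b hb b' hb' => hbad b (Finset.mem_of_mem_erase hb) b' (Finset.mem_of_mem_erase hb'))
      (by
        intro q hq b hb
        rcases Finset.mem_insert.1 hq with h | h
        · rw [h]
          exact hv1' b hb
        · exact hQ q h b (Finset.mem_of_mem_erase hb))
    have hfa : ∀ b ∈ J.erase a, Function.update f a v b = f b :=
      fun b hb => Function.update_of_ne (Finset.ne_of_mem_erase hb) _ _
    have haa : Function.update f a v a = v := Function.update_self _ _ _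
    refine ⟨Function.update f a v, ?_, ?_, ?_⟩
    · intro b hb
      by_cases hba : b = a
      · rw [hba, haa]
        exact hvW
      · rw [hfa b (Finset.mem_erase.2 ⟨hba, hb⟩)]
        exact hf1 b (Finset.mem_erase.2 ⟨hba, hb⟩)
    · intro q hq b hb
      by_cases hba : b = a
      · rw [hba, haa]
        exact hv2' q hq
      · rw [hfa b (Finset.mem_erase.2 ⟨hba, hb⟩)]
        exact hf2 q (Finset.mem_insert_of_mem hq) b (Finset.mem_erase.2 ⟨hba, hb⟩)
    · intro b hb b' hb' hlt
      have hb'a : b' ≠ a := by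
        intro h
        rw [h] at hlt
        exact absurd hlt (not_lt.2 (hmin b hb))
      rw [hfa b' (Finset.mem_erase.2 ⟨hb'a, hb'⟩)]
      by_cases hba : b = a
      · rw [hba, haa]
        exact hf2 v (Finset.mem_insert_self _ _) b' (Finset.mem_erase.2 ⟨hb'a, hb'⟩)
      · rw [hfa b (Finset.mem_erase.2 ⟨hba, hb⟩)]
        exact hf3 b (Finset.mem_erase.2 ⟨hba, hb⟩) b' (Finset.mem_erase.2 ⟨hb'a, hb'⟩) hlt

/-- **Theorem E.** -/
theorem E_main {C : Comb X N} {τ : ℕ → ℕ → ℕ} (hE : C.IsE τ) {p : ℕ} (hp : 1 ≤ p)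
    (hN : 4 * p ^ 10 ≤ N) :
    (∃ Q : Finset ℕ, (∀ a ∈ Q, a + 1 < N) ∧ p ≤ Q.card ∧
      ∀ a ∈ Q, ∀ b ∈ Q, ∀ c ∈ Q, a < b → b < c → C.UAt a b c) ∨
    (∃ Q : Finset ℕ, (∀ a ∈ Q, a + 1 < N) ∧ p ≤ Q.card ∧
      ∀ a ∈ Q, ∀ b ∈ Q, ∀ c ∈ Q, a < b → b < c → C.LAt a b c) ∨ Sav X p := by
  classical
  obtain ⟨w, hw⟩ : ∃ w, w = p * p ^ 2 := ⟨_, rfl⟩
  obtain ⟨D, hD⟩ : ∃ D, D = w * w + 1 := ⟨_, rfl⟩
  obtain ⟨k, hk⟩ : ∃ k, k = p * D := ⟨_, rfl⟩
  have hwpos : 0 < w := by rw [hw]; positivity
  have hkN : k * w + p + 1 ≤ N := by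
    refine le_trans ?_ hN
    have e1 : k * w = p ^ 10 + p ^ 4 := by
      rw [hk, hD, hw]
      ring
    have e2 : p ^ 4 ≤ p ^ 10 := Nat.pow_le_pow_right hp (by norm_num)
    have e3 : p ≤ p ^ 10 := by
      calc p = p ^ 1 := (pow_one p).symm
        _ ≤ p ^ 10 := Nat.pow_le_pow_right hp (by norm_num)
    have e4 : 1 ≤ p ^ 10 := Nat.one_le_pow _ _ hp
    omega
  have hWin : ∀ a < k, ∀ v ∈ Win w a, v + 1 < N := by
    intro a ha v hv
    have h1 := (mem_Win.1 hv).2
    have h2 : (a + 1) * w ≤ k * w := Nat.mul_le_mul_right _ ha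
    omega
  rcases greedy_graph (fun a b => p ^ 2 ≤ ((Win w a).filter fun v => p ^ 2 ≤ (Hv τ w v b).card).card)
    (D := D) (by omega) p (range k) (by rw [Finset.card_range, hk]) with
    ⟨a, ha, G, hGI, hGD, hG⟩ | ⟨J, hJI, hJc, hJ⟩
  · -- a good pair of windows
    have hak := Finset.mem_range.1 ha
    have hbad : (((Win w a) ×ˢ (Win w a)).image fun q => (τ q.1 q.2 - 1) / w).card < G.card := by
      refine lt_of_le_of_lt Finset.card_image_le ?_
      rw [Finset.card_product, card_Win]
      omega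
    obtain ⟨b, hbG, hbbad⟩ := Finset.exists_mem_notMem_of_card_lt_card hbad
    have hbk := Finset.mem_range.1 (hGI hbG)
    obtain ⟨hab, hgood⟩ := hG b hbG
    have hdec : ∀ x ∈ Win w a, ∀ v ∈ Win w a, τ x v ≤ (b + 1) * w → τ x v ≤ b * w := by
      intro x hx v hv hle
      by_contra hcon
      apply hbbad
      refine Finset.mem_image.2 ⟨(x, v), Finset.mk_mem_product hx hv, ?_⟩
      simp only
      rw [Nat.div_eq_iff hwpos]
      have : (b + 1) * w = b * w + w := by ring
      constructor <;> omega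
    have hbw : (b + 1) * w ≤ k * w := Nat.mul_le_mul_right _ hbk
    have hab' : (a + 1) * w ≤ b * w := Nat.mul_le_mul_right _ hab
    have hbb : b * w ≤ (b + 1) * w := Nat.mul_le_mul_right _ (Nat.le_succ b)
    by_cases hcl : NoClq (fun x y => (b + 1) * w < τ x y)
      (((Win w a).filter fun v => p ^ 2 ≤ (Hv τ w v b).card) ∪ Win w b) p
    · right; right
      have hlast : ∀ u ∈ ((Win w a).filter fun v => p ^ 2 ≤ (Hv τ w v b).card) ∪ Win w b,
          u < (b + 1) * w := by
        intro u hu
        rcases Finset.mem_union.1 hu with h | h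
        · have := (mem_Win.1 (Finset.mem_filter.1 h).1).2
          omega
        · exact (mem_Win.1 h).2
      refine engine (C := C) (H := fun x y => (b + 1) * w < τ x y) (n₁ := b * w)
        (n₂ := (b + 1) * w) hp (A := (Win w a).filter fun v => p ^ 2 ≤ (Hv τ w v b).card)
        (B := Win w b) ?_ ?_ hbb (fun j => k * w + j) ?_ ?_ ?_ ?_ ?_ hcl hgood ?_
      · intro v hv
        have := (mem_Win.1 (Finset.mem_filter.1 hv).1).2
        omega
      · intro v hv
        exact mem_Win.1 hv
      · intro i hi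
        constructor <;> omega
      · intro i j hij _
        omega
      · intro v hv u hu l hl hvu hul hH
        have hl' := hlast l hl
        exact (hE v u l hvu hul (by omega)).1 (by omega)
      · intro x hx r hr hxr hH
        have hτ := hdec x (Finset.mem_filter.1 hx).1 r (Finset.mem_filter.1 hr).1 (not_lt.1 hH)
        have hr' := (mem_Win.1 (Finset.mem_filter.1 hr).1).2
        constructor
        · intro y hy
          have hy' := mem_Win.1 hy
          exact ((hE x r y hxr (by omega) (by omega)).2 (by omega)).2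
        · intro j hj
          exact ((hE x r (k * w + j) hxr (by omega) (by omega)).2 (by omega)).2
      · intro v hv x hx u hu hxv huv hHu hHx
        have hv' := hlast v hv
        have h5 := (hE x v ((b + 1) * w) hxv hv' (by omega)).2 (not_lt.1 hHx)
        have h6 := (hE u v ((b + 1) * w) huv hv' (by omega)).1 hHu
        exact le_trans h5.2 h6.2
      · intro v hv
        refine ⟨Hv τ w v b, Finset.filter_subset _ _, (Finset.mem_filter.1 hv).2, fun y hy => ?_⟩
        exact (Finset.mem_filter.1 hy).2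
    · left
      unfold NoClq at hcl
      push Not at hcl
      obtain ⟨Q, hQ, hQH, hQc⟩ := hcl
      have hQw : ∀ u ∈ Q, u < (b + 1) * w := by
        intro u hu
        rcases Finset.mem_union.1 (hQ hu) with h | h
        · have := (mem_Win.1 (Finset.mem_filter.1 h).1).2
          omega
        · exact (mem_Win.1 h).2
      refine ⟨Q, fun u hu => ?_, hQc, ?_⟩
      · have := hQw u hu
        omega
      · intro x hx y hy z hz hxy hyz
        have hzw := hQw z hz
        have h5 := hQH x hx y hy hxy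
        exact (hE x y z hxy hyz (by omega)).1 (by omega)
  · -- no good pair: a transversal of type L
    right; left
    obtain ⟨f, hf1, -, hf3⟩ := transversal τ (w := w) (by rw [hw]) hp p J ∅ hJc
      (by rw [hJc, Finset.card_empty, add_zero])
      (fun a ha b hb hab => not_le.1 (hJ a ha b hb hab)) (by simp)
    have hmono : ∀ a ∈ J, ∀ b ∈ J, a < b → f a < f b := by
      intro a ha b hb hab
      have h1 := (mem_Win.1 (hf1 a ha)).2
      have h2 := (mem_Win.1 (hf1 b hb)).1
      have h3 : (a + 1) * w ≤ b * w := Nat.mul_le_mul_right _ hab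
      omega
    have hmono' : ∀ a ∈ J, ∀ b ∈ J, f a < f b → a < b := by
      intro a ha b hb hab
      rcases lt_trichotomy a b with h | h | h
      · exact h
      · rw [h] at hab
        exact absurd hab (lt_irrefl _)
      · exact absurd (hmono b hb a ha h) (not_lt.2 hab.le)
    refine ⟨J.image f, ?_, ?_, ?_⟩
    · intro u hu
      obtain ⟨a, ha, rfl⟩ := Finset.mem_image.1 hu
      exact hWin a (Finset.mem_range.1 (hJI ha)) _ (hf1 a ha)
    · rw [Finset.card_image_of_injOn, hJc]
      intro a ha b hb hab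
      rcases lt_trichotomy a b with h | h | h
      · exact absurd hab (hmono a ha b hb h).ne
      · exact h
      · exact absurd hab (hmono b hb a ha h).ne'
    · intro x hx y hy z hz hxy hyz
      obtain ⟨a, ha, rfl⟩ := Finset.mem_image.1 hx
      obtain ⟨b, hb, rfl⟩ := Finset.mem_image.1 hy
      obtain ⟨c, hc, rfl⟩ := Finset.mem_image.1 hz
      have hab := hmono' a ha b hb hxy
      have hbc := hmono' b hb c hc hyz
      refine (hE (f a) (f b) (f c) hxy hyz (hWin c (Finset.mem_range.1 (hJI hc)) _ (hf1 c hc))).2 ?_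
      have h1 := hf3 a ha b hb hab
      have h2 := (mem_Win.1 (hf1 c hc)).1
      have h3 : (b + 1) * w ≤ c * w := Nat.mul_le_mul_right _ hbc
      omega

end E

end Pool.Agent.Lib.MP_293cc0_an
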