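import Pool.Agent.Lib.MP_293cc0_an.E.Finish

/-!
# MP_293cc0_an, class E: first fit, extension, and the engine

`H u v` (`u < v`): the pair is heavy. `A`: a first-fit game with new roots; `B`: every tree gets an element in `B`; hosts afterwards.
-/

set_option autoImplicit false

namespace Pool.Agent.Lib.MP_293cc0_an.E

open Finset

variable {X : Type} [MetricSpace X] {N : ℕ}

/-- There is no heavy clique with `p` points in `Q`. -/
def NoClq (H : ℕ → ℕ → Prop) (Q : Finset ℕ) (p : ℕ) : Prop :=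
  ∀ A ⊆ Q, (∀ x ∈ A, ∀ y ∈ A, x < y → H x y) → A.card < p

theorem Fo.top {C : Comb X N} {H : ℕ → ℕ → Prop} {n s : ℕ} {S : Finset ℕ}
    {c r par : ℕ → ℕ} {Z : ℕ → Finset ℕ} {σ : ℕ → ℕ → Option Bool}
    (h : Fo C H n s S c r par Z σ) (v : ℕ)
    (h3 : ∀ x ∈ S, ∀ u ∈ S, H u v → ¬ H x v → C.e x v ≤ C.e u v)
    (hJ : ∃ i < s, ∀ u ∈ S, c u = i → H u v) :
    ∃ i₀ < s, (∀ u ∈ S, c u = i₀ → H u v) ∧ ∃ z : ℕ → ℕ, (∀ i < s, z i ∈ S ∧ c (z i) = i) ∧
      H (z i₀) v ∧ ∀ i < s, C.e (z i) v ≤ C.e (z i₀) v := by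
  classical
  obtain ⟨j, hj, hjH⟩ := hJ
  obtain ⟨t, ht, hmax⟩ := Finset.exists_max_image (S.filter fun u => ∀ w ∈ S, c w = c u → H w v)
    (fun u => C.e u v) ⟨r j, by
      rw [Finset.mem_filter]
      obtain ⟨h1, h2⟩ := h.root j hj
      refine ⟨h1, ?_⟩
      rw [h2]
      exact hjH⟩
  rw [Finset.mem_filter] at ht
  obtain ⟨htS, htH⟩ := ht
  have hz : ∀ i, ∃ u, i < s → (u ∈ S ∧ c u = i ∧ C.e u v ≤ C.e t v ∧ (i = c t → u = t)) := by
    intro i
    by_cases hi : i < s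
    · by_cases hit : i = c t
      · exact ⟨t, fun _ => ⟨htS, hit.symm, le_rfl, fun _ => rfl⟩⟩
      · by_cases hiJ : ∀ u ∈ S, c u = i → H u v
        · obtain ⟨h1, h2⟩ := h.root i hi
          refine ⟨r i, fun _ => ⟨h1, h2, hmax (r i) ?_, fun h4 => absurd h4 hit⟩⟩
          rw [Finset.mem_filter, h2]
          exact ⟨h1, hiJ⟩
        · push Not at hiJ
          obtain ⟨u, hu, hcu, huH⟩ := hiJ
          exact ⟨u, fun _ => ⟨hu, hcu, h3 u hu t htS (htH t htS rfl) huH, fun h4 => absurd h4 hit⟩⟩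
    · exact ⟨0, fun h4 => absurd h4 hi⟩
  choose z hz using hz
  have hct := h.lab t htS
  have hzt : z (c t) = t := (hz (c t) hct).2.2.2 rfl
  refine ⟨c t, hct, htH, z, fun i hi => ⟨(hz i hi).1, (hz i hi).2.1⟩, ?_, ?_⟩
  · rw [hzt]
    exact htH t htS rfl
  · intro i hi
    rw [hzt]
    exact (hz i hi).2.2.1

theorem phase1 {C : Comb X N} {H : ℕ → ℕ → Prop} {p : ℕ} (A : Finset ℕ)
    (h3 : ∀ v ∈ A, ∀ x ∈ A, ∀ u ∈ A, x < v → u < v → H u v → ¬ H x v → C.e x v ≤ C.e u v)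
    (n : ℕ) :
    ∃ (s : ℕ) (S : Finset ℕ) (c r par : ℕ → ℕ) (Z : ℕ → Finset ℕ) (σ : ℕ → ℕ → Option Bool),
      Fo C H n s S c r par Z σ ∧ S ⊆ A ∧ s ≤ p ∧ (s = p ∨ ∀ a ∈ A, a < n → a ∈ S) ∧
      ∀ u ∈ S, ∀ v ∈ S, c u = c v → u < v → H u v := by
  classical
  induction n with
  | zero =>
    exact ⟨0, ∅, _, _, _, _, _, Fo.empty C H 0, by simp, Nat.zero_le _,
      Or.inr (fun a _ ha => absurd ha (Nat.not_lt_zero a)), by simp⟩
  | succ n ih =>
    obtain ⟨s, S, c, r, par, Z, σ, h, hSA, hsp, hor, hclq⟩ := ih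
    by_cases hs : s = p
    · exact ⟨s, S, c, r, par, Z, σ, h.mono (Nat.le_succ n), hSA, hsp, Or.inl hs, hclq⟩
    have hall := hor.resolve_left hs
    by_cases hnA : n ∈ A
    swap
    · refine ⟨s, S, c, r, par, Z, σ, h.mono (Nat.le_succ n), hSA, hsp, Or.inr ?_, hclq⟩
      intro a ha han
      rcases Nat.lt_succ_iff_lt_or_eq.1 han with h4 | h4
      · exact hall a ha h4
      · rw [h4] at ha
        exact absurd ha hnA
    have hlt : ∀ u ∈ S, u < n := h.lt
    have hne : ∀ u ∈ S, u ≠ n := fun u hu => (hlt u hu).ne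
    have hall' : ∀ a ∈ A, a < n + 1 → a ∈ insert n S := by
      intro a ha han
      rcases Nat.lt_succ_iff_lt_or_eq.1 han with h4 | h4
      · exact Finset.mem_insert_of_mem (hall a ha h4)
      · rw [h4]
        exact Finset.mem_insert_self _ _
    have hsub : insert n S ⊆ A := by
      intro u hu
      rcases Finset.mem_insert.1 hu with h4 | h4
      · rw [h4]; exact hnA
      · exact hSA h4
    by_cases hJ : ∃ i < s, ∀ u ∈ S, c u = i → H u n
    · obtain ⟨i₀, hi₀, hH₀, z, hz, hzH, hztop⟩ := h.top n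
        (fun x hx u hu => h3 n hnA x (hSA hx) u (hSA hu) (hlt x hx) (hlt u hu)) hJ
      obtain ⟨σ', h'⟩ := h.attach le_rfl z hz hi₀ hzH hztop
      refine ⟨s, insert n S, _, r, _, _, σ', h', hsub, hsp, Or.inr hall', ?_⟩
      intro u hu v hv huv hlt'
      rcases Finset.mem_insert.1 hu with h4 | h4
      · rcases Finset.mem_insert.1 hv with h5 | h5
        · rw [h4, h5] at hlt'
          exact absurd hlt' (lt_irrefl _)
        · rw [h4] at hlt'
          exact absurd (hlt v h5) (not_lt.2 hlt'.le)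
      · rw [Function.update_of_ne (hne u h4)] at huv
        rcases Finset.mem_insert.1 hv with h5 | h5
        · rw [h5, Function.update_self] at huv
          rw [h5]
          exact hH₀ u h4 huv
        · rw [Function.update_of_ne (hne v h5)] at huv
          exact hclq u h4 v h5 huv hlt'
    · push Not at hJ
      have hz : ∀ i, ∃ u, i < s → (u ∈ S ∧ c u = i ∧ ¬ H u n) := by
        intro i
        by_cases hi : i < s
        · obtain ⟨u, hu, hcu, huH⟩ := hJ i hi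
          exact ⟨u, fun _ => ⟨hu, hcu, huH⟩⟩
        · exact ⟨0, fun h4 => absurd h4 hi⟩
      choose z hz using hz
      obtain ⟨σ', h'⟩ := h.newroot le_rfl z (fun i hi => ⟨(hz i hi).1, (hz i hi).2.1⟩)
        (fun i hi => (hz i hi).2.2)
      refine ⟨s + 1, insert n S, _, _, _, _, σ', h', hsub, lt_of_le_of_ne hsp hs, Or.inr hall', ?_⟩
      intro u hu v hv huv hlt'
      rcases Finset.mem_insert.1 hu with h4 | h4
      · rcases Finset.mem_insert.1 hv with h5 | h5
        · rw [h4, h5] at hlt'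
          exact absurd hlt' (lt_irrefl _)
        · rw [h4] at hlt'
          exact absurd (hlt v h5) (not_lt.2 hlt'.le)
      · rw [Function.update_of_ne (hne u h4)] at huv
        rcases Finset.mem_insert.1 hv with h5 | h5
        · rw [h5, Function.update_self] at huv
          exact absurd huv (h.lab u h4).ne
        · rw [Function.update_of_ne (hne v h5)] at huv
          exact hclq u h4 v h5 huv hlt'

theorem phase1' {C : Comb X N} {H : ℕ → ℕ → Prop} {p : ℕ} (hp : 1 ≤ p) (A : Finset ℕ)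
    (h3 : ∀ v ∈ A, ∀ x ∈ A, ∀ u ∈ A, x < v → u < v → H u v → ¬ H x v → C.e x v ≤ C.e u v)
    (hcl : NoClq H A p) (hcA : p ^ 2 ≤ A.card) (n : ℕ) (hn : ∀ a ∈ A, a < n) :
    ∃ (S : Finset ℕ) (c r par : ℕ → ℕ) (Z : ℕ → Finset ℕ) (σ : ℕ → ℕ → Option Bool),
      Fo C H n p S c r par Z σ ∧ S ⊆ A := by
  classical
  obtain ⟨s, S, c, r, par, Z, σ, h, hSA, hsp, hor, hclq⟩ := phase1 (p := p) A h3 n
  have hs : s = p := by
    by_contra hs
    have hall := hor.resolve_left hs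
    have hSA' : S = A := Finset.Subset.antisymm hSA (fun a ha => hall a ha (hn a ha))
    have h1 := Finset.card_le_mul_card_image_of_maps_to (s := S) (t := range s) (f := c)
      (fun u hu => Finset.mem_range.2 (h.lab u hu)) (p - 1) (by
        intro i _
        have h2 := hcl (S.filter fun u => c u = i)
          (fun u hu => hSA (Finset.mem_filter.1 hu).1) (by
            intro x hx y hy hxy
            rw [Finset.mem_filter] at hx hy
            exact hclq x hx.1 y hy.1 (by rw [hx.2, hy.2]) hxy)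
        omega)
    rw [Finset.card_range, hSA'] at h1
    have h2 : s ≤ p - 1 := by omega
    have h4 : p ^ 2 ≤ (p - 1) * (p - 1) := le_trans hcA (le_trans h1 (Nat.mul_le_mul_left _ h2))
    have h5 : (p - 1) * (p - 1) < p ^ 2 := by
      rw [pow_two]
      exact Nat.mul_lt_mul'' (by omega) (by omega)
    omega
  subst hs
  exact ⟨S, c, r, par, Z, σ, h, hSA⟩

open Classical in
theorem phase2 {C : Comb X N} {H : ℕ → ℕ → Prop} {p n₁ : ℕ} {A B : Finset ℕ}
    (hB : ∀ b ∈ B, n₁ ≤ b) (hAB : Disjoint A B)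
    (h3 : ∀ v ∈ B, ∀ x ∈ A ∪ B, ∀ u ∈ A ∪ B, x < v → u < v → H u v → ¬ H x v →
      C.e x v ≤ C.e u v)
    {S₀ : Finset ℕ} {c₀ r par₀ : ℕ → ℕ} {Z₀ : ℕ → Finset ℕ} {σ₀ : ℕ → ℕ → Option Bool}
    (h₀ : Fo C H n₁ p S₀ c₀ r par₀ Z₀ σ₀) (hS₀ : S₀ ⊆ A) (n : ℕ) (hn : n₁ ≤ n) :
    ∃ (S : Finset ℕ) (c par : ℕ → ℕ) (Z : ℕ → Finset ℕ) (σ : ℕ → ℕ → Option Bool),
      Fo C H n p S c r par Z σ ∧ S ⊆ A ∪ B ∧ 
      (∀ u ∈ S, ∀ v ∈ S, u ∈ B → v ∈ B → c u = c v → u < v → H u v) ∧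
      ∀ i < p, (∀ u ∈ S, c u = i → u ∉ B) →
        (B.filter fun y => y < n ∧ H (r i) y).card ≤ (S.filter fun u => u ∈ B).card := by
  classical
  induction n, hn using Nat.le_induction with
  | base =>
    refine ⟨S₀, c₀, par₀, Z₀, σ₀, h₀, fun u hu => Finset.mem_union_left _ (hS₀ hu), ?_, ?_⟩
    · intro u hu v hv huB
      exact absurd huB (Finset.disjoint_left.1 hAB (hS₀ hu))
    · intro i _ _
      have : (B.filter fun y => y < n₁ ∧ H (r i) y) = ∅ := by
        rw [Finset.filter_eq_empty_iff]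
        rintro y hy ⟨h4, -⟩
        exact absurd h4 (not_lt.2 (hB y hy))
      rw [this, Finset.card_empty]
      exact Nat.zero_le _
  | succ n hn ih =>
    obtain ⟨S, c, par, Z, σ, h, hSAB, hclq, hcnt⟩ := ih
    have hlt : ∀ u ∈ S, u < n := h.lt
    have hne : ∀ u ∈ S, u ≠ n := fun u hu => (hlt u hu).ne
    have hnS : n ∉ S := fun hn' => lt_irrefl _ (hlt n hn')
    by_cases hgo : n ∈ B ∧ ∃ i < p, (∀ u ∈ S, c u = i → u ∉ B) ∧ H (r i) n
    swap
    · refine ⟨S, c, par, Z, σ, h.mono (Nat.le_succ n), hSAB, hclq, ?_⟩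
      intro i hi hiB
      refine le_trans (Finset.card_le_card ?_) (hcnt i hi hiB)
      intro y hy
      rw [Finset.mem_filter] at hy ⊢
      obtain ⟨hyB, hyn, hyH⟩ := hy
      refine ⟨hyB, ?_, hyH⟩
      rcases Nat.lt_succ_iff_lt_or_eq.1 hyn with h4 | h4
      · exact h4
      · rw [h4] at hyB hyH
        exact absurd ⟨hyB, i, hi, hiB, hyH⟩ hgo
    obtain ⟨hnB, i₁, hi₁, hi₁B, hH₁⟩ := hgo
    have hsub : insert n S ⊆ A ∪ B := by
      intro u hu
      rcases Finset.mem_insert.1 hu with h4 | h4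
      · rw [h4]; exact Finset.mem_union_right _ hnB
      · exact hSAB h4
    have hSn : ∀ x ∈ S, ∀ u ∈ S, H u n → ¬ H x n → C.e x n ≤ C.e u n := fun x hx u hu =>
      h3 n hnB x (hSAB hx) u (hSAB hu) (hlt x hx) (hlt u hu)
    have hcard : ((insert n S).filter fun u => u ∈ B).card = (S.filter fun u => u ∈ B).card + 1 := by
      rw [Finset.filter_insert, if_pos hnB, Finset.card_insert_of_notMem]
      intro h4
      exact hnS (Finset.mem_filter.1 h4).1
    have hcount : ∀ i, (B.filter fun y => y < n + 1 ∧ H (r i) y).card ≤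
        (B.filter fun y => y < n ∧ H (r i) y).card + 1 := by
      intro i
      refine le_trans (Finset.card_le_card (t := insert n (B.filter fun y => y < n ∧ H (r i) y)) ?_)
        (Finset.card_insert_le _ _)
      intro y hy
      rw [Finset.mem_filter] at hy
      obtain ⟨hyB, hyn, hyH⟩ := hy
      rcases Nat.lt_succ_iff_lt_or_eq.1 hyn with h4 | h4
      · exact Finset.mem_insert_of_mem (Finset.mem_filter.2 ⟨hyB, h4, hyH⟩)
      · rw [h4]
        exact Finset.mem_insert_self _ _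
    -- the two kinds of moves
    have hmove : ∃ i₀ < p, ((∀ u ∈ S, c u = i₀ → u ∈ B → H u n)) ∧ ∃ z : ℕ → ℕ,
        (∀ i < p, z i ∈ S ∧ c (z i) = i) ∧ H (z i₀) n ∧ ∀ i < p, C.e (z i) n ≤ C.e (z i₀) n := by
      by_cases hJ : ∃ i < p, ∀ u ∈ S, c u = i → H u n
      · obtain ⟨i₀, hi₀, hH₀, z, hz, hzH, hztop⟩ := h.top n hSn hJ
        exact ⟨i₀, hi₀, fun u hu hcu _ => hH₀ u hu hcu, z, hz, hzH, hztop⟩
      · push Not at hJ
        have hz : ∀ i, ∃ u, i < p → (u ∈ S ∧ c u = i ∧ C.e u n ≤ C.e (r i₁) n ∧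
            (i = i₁ → u = r i₁)) := by
          intro i
          by_cases hi : i < p
          · by_cases hii : i = i₁
            · rw [hii]
              exact ⟨r i₁, fun _ => ⟨(h.root i₁ hi₁).1, (h.root i₁ hi₁).2, le_rfl, fun _ => rfl⟩⟩
            · obtain ⟨u, hu, hcu, huH⟩ := hJ i hi
              exact ⟨u, fun _ => ⟨hu, hcu, hSn u hu (r i₁) (h.root i₁ hi₁).1 hH₁ huH,
                fun h4 => absurd h4 hii⟩⟩
          · exact ⟨0, fun h4 => absurd h4 hi⟩
        choose z hz using hz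
        have hz1 : z i₁ = r i₁ := (hz i₁ hi₁).2.2.2 rfl
        refine ⟨i₁, hi₁, fun u hu hcu huB => absurd huB (hi₁B u hu hcu), z,
          fun i hi => ⟨(hz i hi).1, (hz i hi).2.1⟩, ?_, ?_⟩
        · rw [hz1]; exact hH₁
        · intro i hi
          rw [hz1]
          exact (hz i hi).2.2.1
    obtain ⟨i₀, hi₀, hH₀, z, hz, hzH, hztop⟩ := hmove
    obtain ⟨σ', h'⟩ := h.attach le_rfl z hz hi₀ hzH hztop
    refine ⟨insert n S, _, _, _, σ', h', hsub, ?_, ?_⟩
    · intro u hu v hv huB hvB huv hlt'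
      rcases Finset.mem_insert.1 hu with h4 | h4
      · rcases Finset.mem_insert.1 hv with h5 | h5
        · rw [h4, h5] at hlt'
          exact absurd hlt' (lt_irrefl _)
        · rw [h4] at hlt'
          exact absurd (hlt v h5) (not_lt.2 hlt'.le)
      · rw [Function.update_of_ne (hne u h4)] at huv
        rcases Finset.mem_insert.1 hv with h5 | h5
        · rw [h5, Function.update_self] at huv
          rw [h5]
          exact hH₀ u h4 huv huB
        · rw [Function.update_of_ne (hne v h5)] at huv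
          exact hclq u h4 v h5 huB hvB huv hlt'
    · intro i hi hiB
      rw [hcard]
      refine le_trans (hcount i) (Nat.succ_le_succ (hcnt i hi ?_))
      intro u hu hcu
      apply hiB u (Finset.mem_insert_of_mem hu)
      rw [Function.update_of_ne (hne u hu)]
      exact hcu

/-- **The engine.** -/
theorem engine {C : Comb X N} {H : ℕ → ℕ → Prop} {p n₁ n₂ : ℕ} (hp : 1 ≤ p) {A B : Finset ℕ}
    (hA : ∀ a ∈ A, a < n₁) (hB : ∀ b ∈ B, n₁ ≤ b ∧ b < n₂) (hn : n₁ ≤ n₂) (ζ : ℕ → ℕ)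
    (hζ : ∀ i < p, n₂ ≤ ζ i ∧ ζ i < N) (hζm : ∀ i j, i < j → j < p → ζ i < ζ j)
    (h1 : ∀ v ∈ A ∪ B, ∀ u ∈ A ∪ B, ∀ k ∈ A ∪ B, v < u → u < k → H v u →
      C.e v k ≤ C.e v u ∧ C.e u k ≤ C.e v u)
    (h2 : ∀ x ∈ A, ∀ r ∈ A, x < r → ¬ H x r →
      (∀ y ∈ B, C.e x r ≤ C.e r y) ∧ ∀ j < p, C.e x r ≤ C.e r (ζ j))
    (h3 : ∀ v ∈ A ∪ B, ∀ x ∈ A ∪ B, ∀ u ∈ A ∪ B, x < v → u < v → H u v → ¬ H x v →
      C.e x v ≤ C.e u v)
    (hcl : NoClq H (A ∪ B) p) (hcA : p ^ 2 ≤ A.card)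
    (hcB : ∀ v ∈ A, ∃ D ⊆ B, p ^ 2 ≤ D.card ∧ ∀ y ∈ D, H v y) : Sav X p := by
  classical
  have hAB : Disjoint A B := by
    rw [Finset.disjoint_left]
    intro a ha hb
    exact absurd (hA a ha) (not_lt.2 (hB a hb).1)
  obtain ⟨S₀, c₀, r, par₀, Z₀, σ₀, h₀, hS₀⟩ := phase1' hp A
    (fun v hv x hx u hu => h3 v (Finset.mem_union_left _ hv) x (Finset.mem_union_left _ hx) u
      (Finset.mem_union_left _ hu))
    (fun D hD => hcl D (fun a ha => Finset.mem_union_left _ (hD ha))) hcA n₁ hA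
  obtain ⟨S, c, par, Z, σ, h, hSAB, hclq, hcnt⟩ := phase2 (fun b hb => (hB b hb).1) hAB
    (fun v hv => h3 v (Finset.mem_union_right _ hv)) h₀ hS₀ n₂ hn
  have hrA : ∀ i < p, r i ∈ A := fun i hi => hS₀ (h₀.root i hi).1
  have hBn : ∀ i < p, ∃ u ∈ S, c u = i ∧ u ∈ B := by
    intro i hi
    by_contra hno
    have hno' : ∀ u ∈ S, c u = i → u ∉ B := fun u hu hcu huB => hno ⟨u, hu, hcu, huB⟩
    obtain ⟨D, hDB, hDc, hDH⟩ := hcB (r i) (hrA i hi)
    have h4 : D.card ≤ (B.filter fun y => y < n₂ ∧ H (r i) y).card := by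
      apply Finset.card_le_card
      intro y hy
      rw [Finset.mem_filter]
      exact ⟨hDB hy, (hB y (hDB hy)).2, hDH y hy⟩
    have h5 := hcnt i hi hno'
    have h6 := Finset.card_le_mul_card_image_of_maps_to (s := S.filter fun u => u ∈ B)
      (t := range p) (f := c)
      (fun u hu => Finset.mem_range.2 (h.lab u (Finset.mem_filter.1 hu).1)) (p - 1) (by
        intro j _
        have h7 := hcl ((S.filter fun u => u ∈ B).filter fun u => c u = j)
          (fun u hu => hSAB (Finset.mem_filter.1 (Finset.mem_filter.1 hu).1).1) (by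
            intro x hx y hy hxy
            rw [Finset.mem_filter, Finset.mem_filter] at hx hy
            exact hclq x hx.1.1 y hy.1.1 hx.1.2 hy.1.2 (by rw [hx.2, hy.2]) hxy)
        omega)
    rw [Finset.card_range] at h6
    have h8 : p ^ 2 ≤ (p - 1) * p := by omega
    have h9 : (p - 1) * p < p ^ 2 := by
      rw [pow_two]
      exact Nat.mul_lt_mul_of_pos_right (by omega) (by omega)
    omega
  have hy : ∀ i, ∃ u, i < p → (u ∈ S ∧ c u = i ∧ u ∈ B) := by
    intro i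
    by_cases hi : i < p
    · obtain ⟨u, h4⟩ := hBn i hi
      exact ⟨u, fun _ => h4⟩
    · exact ⟨0, fun h4 => absurd h4 hi⟩
  choose y hy using hy
  refine h.finish (fun v hv u hu k hk => h1 v (hSAB hv) u (hSAB hu) k (hSAB hk)) y
    (fun i hi => ⟨(hy i hi).1, (hy i hi).2.1⟩) ζ hζ hζm ?_ ?_
  · intro i hi j hj
    exact lt_of_lt_of_le (hA _ (hrA i hi)) (hB _ (hy j hj).2.2).1
  · intro i hi x hx j hj
    have hri := (h.root i hi).1
    obtain ⟨hxS, hxr⟩ := h.zlt (r i) hri x hx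
    have hxA : x ∈ A := by
      rcases Finset.mem_union.1 (hSAB hxS) with h4 | h4
      · exact h4
      · exact absurd (lt_trans hxr (hA _ (hrA i hi))) (not_lt.2 (hB x h4).1)
    have h4 := h2 x hxA (r i) (hrA i hi) hxr (h.light i hi x hx)
    exact ⟨h4.1 _ (hy j hj).2.2, h4.2 j hj⟩

end Pool.Agent.Lib.MP_293cc0_an.E
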