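import Pool.Agent.Lib.MP_293cc0_an.E.Main
import Pool.Agent.Lib.MP_293cc0_an.LG.Main
import Pool.Agent.Lib.MP_293cc0_an.U.Main

/-!
# MP_293cc0_an: combs of class E have polynomial savings

`Comb.savE`: a comb of class E with `4 (1024 p ^ 10) ^ 10` points has savings `p`.
-/

set_option autoImplicit false

namespace Pool.Agent.Lib.MP_293cc0_an

open Finset

variable {X : Type} [MetricSpace X] {N : ℕ}

theorem Sav.mono {p P : ℕ} (h : Sav X P) (hp : p ≤ P) : Sav X p := by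
  obtain ⟨S, K, hS, f, hf⟩ := h
  refine ⟨S, K + (P - p), by omega, ⟨fun i => if h : i.1 < K then f ⟨i.1, h⟩ else
    ⟨∅, fun _ => true, fun _ => 0, by simp, by simp⟩, ?_⟩⟩
  intro x hx y hy hxy
  obtain ⟨i, hi⟩ := hf x hx y hy hxy
  refine ⟨⟨i.1, by have := i.2; omega⟩, ?_⟩
  simp only
  rw [dif_pos i.2]
  exact hi

/-- A finite set of indices gives a subcomb. -/
theorem Comb.exists_sub (C : Comb X N) (Q : Finset ℕ) (hQ : ∀ a ∈ Q, a < N) {M : ℕ}
    (hM : M ≤ Q.card) :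
    ∃ (q : ℕ → ℕ) (hq : ∀ i j, i < j → j < M → q i < q j) (hN : ∀ i, i < M → q i < N),
      ∀ i, i < M → q i ∈ Q ∧ (C.sub q hq hN).e = fun i j => C.e (q i) (q j) := by
  classical
  obtain ⟨Q', hQ', hc⟩ := Finset.exists_subset_card_eq hM
  let q : ℕ → ℕ := fun i => if h : i < M then Q'.orderEmbOfFin hc ⟨i, h⟩ else 0
  have hqi : ∀ i (h : i < M), q i = Q'.orderEmbOfFin hc ⟨i, h⟩ := fun i h => dif_pos h
  have hmem : ∀ i, i < M → q i ∈ Q := by
    intro i hi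
    rw [hqi i hi]
    exact hQ' (Finset.orderEmbOfFin_mem _ _ _)
  have hq : ∀ i j, i < j → j < M → q i < q j := by
    intro i j hij hj
    rw [hqi i (lt_trans hij hj), hqi j hj]
    exact (Q'.orderEmbOfFin hc).strictMono hij
  exact ⟨q, hq, fun i hi => hQ _ (hmem i hi), fun i hi => ⟨hmem i hi, rfl⟩⟩

theorem Comb.sav_of_UAt (C : Comb X N) (Q : Finset ℕ) (hQ : ∀ a ∈ Q, a < N) {p : ℕ}
    (hc : 2 * p ^ 2 + 2 * p ≤ Q.card)
    (hU : ∀ a ∈ Q, ∀ b ∈ Q, ∀ c ∈ Q, a < b → b < c → C.UAt a b c) : Sav X p := by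
  classical
  obtain ⟨q, hq, hN, h⟩ := C.exists_sub Q hQ hc
  refine U.U_main (C := C.sub q hq hN) ?_ p le_rfl
  intro a b c hac hbc hcM hab
  have ha := (h a (by omega)).1
  have hb := (h b (by omega)).1
  have hc' := (h c (by omega)).1
  show C.e (q a) (q c) ≤ C.e (q a) (q b)
  rcases lt_or_gt_of_ne hab with h1 | h1
  · exact (hU _ ha _ hb _ hc' (hq _ _ h1 (by omega)) (hq _ _ hbc (by omega))).1
  · rw [C.symm (q a) (q b)]
    exact (hU _ hb _ ha _ hc' (hq _ _ h1 (by omega)) (hq _ _ hac (by omega))).2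

theorem Comb.sav_of_LAt (C : Comb X N) (Q : Finset ℕ) (hQ : ∀ a ∈ Q, a < N) {p : ℕ} (hp : 1 ≤ p)
    (hc : 1024 * p ^ 10 ≤ Q.card)
    (hL : ∀ a ∈ Q, ∀ b ∈ Q, ∀ c ∈ Q, a < b → b < c → C.LAt a b c) : Sav X p := by
  classical
  obtain ⟨q, hq, hN, h⟩ := C.exists_sub Q hQ hc
  refine Comb.savL (C.sub q hq hN) ?_ hp le_rfl
  intro a b c hac hbc hcM hab
  have ha := (h a (by omega)).1
  have hb := (h b (by omega)).1
  have hc' := (h c (by omega)).1
  show C.e (q a) (q b) ≤ C.e (q a) (q c)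
  rcases lt_or_gt_of_ne hab with h1 | h1
  · exact (hL _ ha _ hb _ hc' (hq _ _ h1 (by omega)) (hq _ _ hbc (by omega))).1
  · rw [C.symm (q a) (q b)]
    exact (hL _ hb _ ha _ hc' (hq _ _ h1 (by omega)) (hq _ _ hac (by omega))).2

/-- **Combs of class E.** -/
theorem Comb.savE (C : Comb X N) {τ : ℕ → ℕ → ℕ} (hE : C.IsE τ) {p : ℕ} (hp : 1 ≤ p)
    (hN : 4 * (1024 * p ^ 10) ^ 10 ≤ N) : Sav X p := by
  have h1 : p ≤ p ^ 10 := by
    calc p = p ^ 1 := (pow_one p).symm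
      _ ≤ p ^ 10 := Nat.pow_le_pow_right hp (by norm_num)
  have h2 : p ^ 2 ≤ p ^ 10 := Nat.pow_le_pow_right hp (by norm_num)
  rcases E.E_main hE (p := 1024 * p ^ 10) (by omega) hN with ⟨Q, hQ, hc, hU⟩ | ⟨Q, hQ, hc, hL⟩ | h
  · exact C.sav_of_UAt Q (fun a ha => by have := hQ a ha; omega) (by omega) hU
  · exact C.sav_of_LAt Q (fun a ha => by have := hQ a ha; omega) hp hc hL
  · exact h.mono (by omega)

end Pool.Agent.Lib.MP_293cc0_an
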